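import Mathlib

/-!
# MP_820b44_gt : products with fewer than `cov(M)` points

If `A` has fewer than `cov(M)` points and `Y` is a `γ`-set, then `A × Y` satisfies `S_1(Γ, O)`.
-/

set_option autoImplicit false

open Set Topology
open scoped Cardinal

namespace Pool.Agent.Results.MP_820b44_gt.BelowCovMeager

/-- `𝒰` is an open cover of `X` which does not contain `X` itself. -/
def IsOpenCover {X : Type} [TopologicalSpace X] (𝒰 : Set (Set X)) : Prop :=
  (∀ U ∈ 𝒰, IsOpen U) ∧ ⋃₀ 𝒰 = univ ∧ univ ∉ 𝒰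

/-- `𝒰` is an open `ω`-cover. -/
def IsOmegaCover {X : Type} [TopologicalSpace X] (𝒰 : Set (Set X)) : Prop :=
  IsOpenCover 𝒰 ∧ ∀ F : Set X, F.Finite → ∃ U ∈ 𝒰, F ⊆ U

/-- `𝒰` is an open `γ`-cover. -/
def IsGammaCover {X : Type} [TopologicalSpace X] (𝒰 : Set (Set X)) : Prop :=
  IsOpenCover 𝒰 ∧ 𝒰.Infinite ∧ ∀ x : X, {U ∈ 𝒰 | x ∉ U}.Finite

/-- `X` has the `γ`-property. -/
def GammaProperty (X : Type) [TopologicalSpace X] : Prop :=
  ∀ 𝒰 : Set (Set X), IsOmegaCover 𝒰 → ∃ 𝒱 ⊆ 𝒰, IsGammaCover 𝒱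

/-- `X` satisfies `S_1(Γ, O)`. -/
def S1GammaO (X : Type) [TopologicalSpace X] : Prop :=
  ∀ 𝒰 : ℕ → Set (Set X), (∀ n, IsGammaCover (𝒰 n)) →
    ∃ U : ℕ → Set X, (∀ n, U n ∈ 𝒰 n) ∧ ⋃ n, U n = univ

/-- `cov(M)`: the least size of a family of meagre sets covering the Baire space. -/
noncomputable def covM : Cardinal.{0} :=
  sInf {κ | ∃ 𝓜 : Set (Set (ℕ → ℕ)), (∀ M ∈ 𝓜, IsMeagre M) ∧ ⋃₀ 𝓜 = univ ∧ #𝓜 = κ}

/-- The functions which are infinitely often equal to `g` form a comeagre set. -/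
lemma meagre_aux (g : ℕ → ℕ) : IsMeagre {f : ℕ → ℕ | ¬ ∃ᶠ n in Filter.atTop, f n = g n} := by
  have h1 : {f : ℕ → ℕ | ¬ ∃ᶠ n in Filter.atTop, f n = g n} =
      ⋃ N : ℕ, {f : ℕ → ℕ | ∀ n, N ≤ n → f n ≠ g n} := by
    ext f
    simp only [Filter.not_frequently, Filter.eventually_atTop, mem_setOf_eq, mem_iUnion, ne_eq]
  rw [h1]
  refine isMeagre_iUnion fun N => ?_
  have hcl : IsClosed {f : ℕ → ℕ | ∀ n, N ≤ n → f n ≠ g n} := by
    simp only [setOf_forall]
    refine isClosed_iInter fun n => isClosed_iInter fun _ => ?_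
    exact IsClosed.preimage (f := fun f : ℕ → ℕ => f n) (continuous_apply n)
      (isClosed_discrete {x : ℕ | x ≠ g n})
  refine (hcl.isNowhereDense_iff.2 ?_).isMeagre
  rw [interior_eq_empty_iff_dense_compl, dense_iff_inter_open]
  rintro U hU ⟨f, hf⟩
  obtain ⟨I, u, hu, hIu⟩ := isOpen_pi_iff.1 hU f hf
  obtain ⟨n, hn⟩ := Finset.exists_nat_subset_range I
  refine ⟨Function.update f (max n N) (g (max n N)), hIu ?_, ?_⟩
  · intro i hi
    have : i ≠ max n N := by
      have := Finset.mem_range.1 (hn hi)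
      have := le_max_left n N
      omega
    rw [Function.update_of_ne this]
    exact (hu i hi).2
  · simp only [mem_compl_iff, mem_setOf_eq]
    intro h
    exact h (max n N) (le_max_right _ _) (by rw [Function.update_self])

/-- A family of fewer than `cov(M)` functions admits a function which is infinitely often equal to
each of them. -/
lemma exists_infinitely_equal {A : Type} (hA : #A < covM) (g : A → ℕ → ℕ) :
    ∃ f : ℕ → ℕ, ∀ a, ∃ᶠ n in Filter.atTop, f n = g a n := by
  by_contra hcon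
  push Not at hcon
  have h1 : covM ≤ #(range fun a : A => {f : ℕ → ℕ | ¬ ∃ᶠ n in Filter.atTop, f n = g a n}) := by
    refine csInf_le' ⟨_, ?_, ?_, rfl⟩
    · rintro _ ⟨a, rfl⟩
      exact meagre_aux (g a)
    · rw [eq_univ_iff_forall]
      intro f
      obtain ⟨a, ha⟩ := hcon f
      exact ⟨_, ⟨a, rfl⟩, by simpa using ha⟩
  exact absurd (hA.trans_le h1) (not_lt.2 Cardinal.mk_range_le)

/-- `γ`-sets satisfy the selection principle `S_1(Γ, Γ)`. -/
lemma select {Y : Type} [TopologicalSpace Y] [T1Space Y] (hY : GammaProperty Y)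
    (W : ℕ → ℕ → Set Y) (hW : ∀ n m, IsOpen (W n m)) (hfin : ∀ n y, {m | y ∉ W n m}.Finite) :
    ∃ g : ℕ → ℕ, ∀ y, {n | y ∉ W n (g n)}.Finite := by
  classical
  -- finite sets are contained in almost all sets of the `n`-th family
  have hF : ∀ n (F : Set Y), F.Finite → {m | ¬ F ⊆ W n m}.Finite := by
    intro n F hF
    refine (hF.biUnion fun y _ => hfin n y).subset ?_
    intro m hm
    obtain ⟨y, hy1, hy2⟩ := not_subset.1 hm
    exact mem_biUnion hy1 hy2
  cases finite_or_infinite Y with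
  | inl hfinY =>
    have h1 : ∀ n, ∃ m, univ ⊆ W n m := by
      intro n
      have h2 := (hF n univ finite_univ).infinite_compl.nonempty
      obtain ⟨m, hm⟩ := h2
      exact ⟨m, by simpa using hm⟩
    choose g hg using h1
    refine ⟨g, fun y => ?_⟩
    have : {n | y ∉ W n (g n)} = ∅ := by
      ext n
      simp only [mem_setOf_eq, mem_empty_iff_false, iff_false, not_not]
      exact hg n (mem_univ y)
    rw [this]
    exact finite_empty
  | inr hinf =>
    obtain z := Infinite.natEmbedding Y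
    set S : ℕ → ℕ → Set Y := fun n m => (⋂ i ∈ Finset.range (n + 1), W i m) ∩ {z n}ᶜ with hS
    have hSopen : ∀ n m, IsOpen (S n m) := fun n m =>
      (isOpen_biInter_finset fun i _ => hW i m).inter isOpen_compl_singleton
    have hω : IsOmegaCover (range fun p : ℕ × ℕ => S p.1 p.2) := by
      have h2 : ∀ F : Set Y, F.Finite → ∃ U ∈ range fun p : ℕ × ℕ => S p.1 p.2, F ⊆ U := by
        intro F hFf
        obtain ⟨n, hn⟩ : ∃ n, z n ∉ F := by
          by_contra hcon
          push Not at hcon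
          exact infinite_univ ((hFf.preimage z.injective.injOn).subset fun n _ => hcon n)
        have h3 : (⋃ i ∈ Finset.range (n + 1), {m | ¬ F ⊆ W i m}).Finite :=
          (Finset.finite_toSet _).biUnion fun i _ => hF i F hFf
        obtain ⟨m, hm⟩ := h3.infinite_compl.nonempty
        refine ⟨_, ⟨(n, m), rfl⟩, ?_⟩
        intro y hy
        refine ⟨?_, fun h => hn (by rw [mem_singleton_iff] at h; exact h ▸ hy)⟩
        simp only [mem_iInter]
        intro i hi
        by_contra hcon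
        apply hm
        simp only [mem_iUnion]
        exact ⟨i, hi, fun h => hcon (h hy)⟩
      refine ⟨⟨?_, ?_, ?_⟩, h2⟩
      · rintro _ ⟨p, rfl⟩
        exact hSopen p.1 p.2
      · rw [eq_univ_iff_forall]
        intro y
        obtain ⟨U, hU, hyU⟩ := h2 {y} (finite_singleton y)
        exact ⟨U, hU, hyU rfl⟩
      · rintro ⟨p, hp⟩
        have : z p.1 ∈ S p.1 p.2 := by
          have h4 : S p.1 p.2 = univ := hp
          rw [h4]
          exact mem_univ _
        exact this.2 rfl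
    obtain ⟨𝒱, h𝒱, hγ⟩ := hY _ hω
    have hrep : ∀ V ∈ 𝒱, ∃ p : ℕ × ℕ, S p.1 p.2 = V := fun V hV => h𝒱 hV
    choose! p hp using hrep
    -- for each `k` there is a member of `𝒱` with index at least `k`
    have h5 : ∀ k : ℕ, ∃ V ∈ 𝒱, k ≤ (p V).1 := by
      intro k
      by_contra hcon
      push Not at hcon
      apply hγ.2.1
      refine ((Finset.finite_toSet (Finset.range k)).biUnion
        (fun i _ => hγ.2.2 (z i))).subset ?_
      intro V hV
      simp only [mem_iUnion]
      refine ⟨(p V).1, by simpa using hcon V hV, hV, ?_⟩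
      intro h
      have h8 : z (p V).1 ∈ S (p V).1 (p V).2 := by rw [hp V hV]; exact h
      exact h8.2 rfl
    choose V hV1 hV2 using h5
    refine ⟨fun k => (p (V k)).2, fun y => ?_⟩
    have h6 : {k | y ∉ W k (p (V k)).2} ⊆ ⋃ U ∈ {U ∈ 𝒱 | y ∉ U}, Iic (p U).1 := by
      intro k hk
      simp only [mem_iUnion]
      refine ⟨V k, ⟨hV1 k, fun h => hk ?_⟩, hV2 k⟩
      rw [← hp (V k) (hV1 k)] at h
      have h7 := h.1
      simp only [mem_iInter] at h7
      exact h7 k (Finset.mem_range.2 (Nat.lt_succ_of_le (hV2 k)))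
    exact ((hγ.2.2 y).biUnion fun U _ => finite_Iic _).subset h6

/-- **Products of a `γ`-set with a space of fewer than `cov(M)` points satisfy `S_1(Γ, O)`.** -/
theorem result (A Y : Type) [TopologicalSpace A] [TopologicalSpace Y] [T1Space Y]
    (hA : #A < covM) (hY : GammaProperty Y) : S1GammaO (A × Y) := by
  intro 𝒰 h𝒰
  -- enumerate infinitely many members of each cover
  have h1 : ∀ n, ∃ e : ℕ → Set (A × Y), Function.Injective e ∧ ∀ m, e m ∈ 𝒰 n := by
    intro n
    have h2 := (h𝒰 n).2.1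
    exact ⟨fun m => (Set.Infinite.natEmbedding (𝒰 n) h2 m : Set (A × Y)),
      fun a b hab => (Set.Infinite.natEmbedding (𝒰 n) h2).injective (Subtype.ext hab),
      fun m => (Set.Infinite.natEmbedding (𝒰 n) h2 m).2⟩
  choose e he1 he2 using h1
  have hfin : ∀ n (x : A × Y), {m | x ∉ e n m}.Finite := by
    intro n x
    refine (((h𝒰 n).2.2 x).preimage (he1 n).injOn).subset ?_
    intro m hm
    exact ⟨he2 n m, hm⟩
  -- for each point of `A`, a selection which is a `γ`-cover of the corresponding fibre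
  have h3 : ∀ a : A, ∃ g : ℕ → ℕ, ∀ y, {n | (a, y) ∉ e n (g n)}.Finite := by
    intro a
    exact select hY (fun n m => {y | (a, y) ∈ e n m})
      (fun n m => ((h𝒰 n).1.1 _ (he2 n m)).preimage (Continuous.prodMk_right a))
      (fun n y => hfin n (a, y))
  choose g hg using h3
  obtain ⟨f, hf⟩ := exists_infinitely_equal hA g
  refine ⟨fun n => e n (f n), fun n => he2 n _, ?_⟩
  rw [eq_univ_iff_forall]
  rintro ⟨a, y⟩
  have h4 : ∀ᶠ n in Filter.atTop, (a, y) ∈ e n (g a n) := by
    rw [← Nat.cofinite_eq_atTop]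
    exact hg a y
  obtain ⟨n, hn1, hn2⟩ := ((hf a).and_eventually h4).exists
  rw [mem_iUnion]
  exact ⟨n, by rw [hn1]; exact hn2⟩

end Pool.Agent.Results.MP_820b44_gt.BelowCovMeager
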